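import Pool.Agent.Helper88.Ric.Stmts

set_option autoImplicit false

/-!
# Ric, module PIG: two parameters with the same integral data (pigeonhole)
-/

open Complex

namespace RicP

open scoped MatrixGroups

theorem PIG_finite (M : ModData) (N : ℕ) (hN0 : NOK N) : Finite (QN M N) := by
  have : NeZero N := ⟨by have := hN0.2; omega⟩
  have h1 : ({u : ℂˣ | u ^ 4 = 1} : Set ℂˣ).Finite := by
    have h2 : (Units.val '' {u : ℂˣ | u ^ 4 = 1} : Set ℂ).Finite := by
      refine Set.Finite.subset (Polynomial.nthRoots 4 (1 : ℂ)).toFinset.finite_toSet ?_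
      rintro _ ⟨u, hu, rfl⟩
      simp only [Set.mem_ofPred_eq] at hu
      simp only [Finset.mem_coe, Multiset.mem_toFinset]
      rw [Polynomial.mem_nthRoots (by norm_num)]
      rw [← Units.val_pow_eq_pow_val, hu, Units.val_one]
    exact Set.Finite.of_finite_image h2 (Units.val_injective.injOn)
  have h3 : ((Set.univ : Set SL(2, ZMod N)) ×ˢ {u : ℂˣ | u ^ 4 = 1}).Finite :=
    Set.finite_univ.prod h1
  have h4 : ((hN M N).range : Set (SL(2, ZMod N) × ℂˣ)).Finite := by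
    refine h3.subset ?_
    rintro _ ⟨γ, rfl⟩
    refine ⟨Set.mem_univ _, ?_⟩
    exact M.χ_pow γ
  exact h4.to_subtype

theorem st_PIG : ST_PIG := by
  classical
  intro M N hN0 hS
  have := PIG_finite M N hN0
  -- chosen data
  let Sd : ∀ t : ℝ, SumData M N t := fun t => (hS t).some
  let γb : Bool → SL(2, ℤ) := fun b => if b then ModularGroup.S else ModularGroup.T
  have hmn : ∀ t : ℝ, ∀ x : QN M N × QN M N × Bool, ∃ mn : ℤ × ℤ,
      (x.1 : SL(2, ZMod N) × ℂˣ) = (x.2.1 : SL(2, ZMod N) × ℂˣ) * hN M N (γb x.2.2) →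
      ∀ τ : ℂ, 0 < τ.im → (Sd t).S x.2.1 (mob (γb x.2.2) τ) * jj (γb x.2.2) τ = (Sd t).S x.1 τ
      + ((Sd t).d : ℂ) * (t : ℂ) * ((((zet M x.2.1 * M.V₁ (γb x.2.2)).re : ℝ) : ℂ) * τ
        + (((zet M x.2.1 * M.V₂ (γb x.2.2)).re : ℝ) : ℂ)) + (mn.1 : ℂ) * τ + (mn.2 : ℂ) := by
    intro t x
    by_cases h : (x.1 : SL(2, ZMod N) × ℂˣ) =
        (x.2.1 : SL(2, ZMod N) × ℂˣ) * hN M N (γb x.2.2)
    · obtain ⟨m, n, hh⟩ := (Sd t).equi x.1 x.2.1 (γb x.2.2) h
      exact ⟨(m, n), fun _ => hh⟩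
    · exact ⟨(0, 0), fun h' => absurd h' h⟩
  choose mn hmn using hmn
  have hcu : ∀ t : ℝ, ∀ q : QN M N, ∃ (m : ℤ) (b : ℂ), ∀ ε > 0, ∃ Y : ℝ, ∀ τ : ℂ, Y < τ.im →
      ‖(Sd t).S q τ - (m : ℂ) / N * τ - b‖ < ε := fun t q => (Sd t).cusp q
  choose ms bs hcu using hcu
  let Φ : ℝ → ℕ × (QN M N × QN M N × Bool → ℤ × ℤ) × (QN M N → ℤ) :=
    fun t => ((Sd t).d, mn t, ms t)
  have hnot : ¬ Function.Injective Φ := by
    intro hinj
    have : Countable ℝ := hinj.countable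
    exact not_countable this
  rw [Function.Injective] at hnot
  push Not at hnot
  obtain ⟨t, t', hΦ, htt⟩ := hnot
  have hd : (Sd t).d = (Sd t').d := congrArg (fun z => z.1) hΦ
  have hm : mn t = mn t' := congrArg (fun z => z.2.1) hΦ
  have hms : ms t = ms t' := congrArg (fun z => z.2.2) hΦ
  refine ⟨((Sd t).d : ℝ) * (t - t'), fun q τ => (Sd t).S q τ - (Sd t').S q τ, ?_, ?_, ?_, ?_⟩
  · refine mul_ne_zero ?_ (sub_ne_zero.mpr htt)
    have := (Sd t).pos
    positivity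
  · intro q
    exact ((Sd t).hol q).sub ((Sd t').hol q)
  · intro q q' γ hγ hq τ hτ
    obtain ⟨b, rfl⟩ : ∃ b : Bool, γ = γb b := by
      rcases hγ with h | h
      · exact ⟨true, by simp [γb, h]⟩
      · exact ⟨false, by simp [γb, h]⟩
    have h1 := hmn t (q, q', b) hq τ hτ
    have h2 := hmn t' (q, q', b) hq τ hτ
    rw [← hm, ← hd] at h2
    simp only at h1 h2 ⊢
    rw [sub_mul, h1, h2]
    push_cast
    ring
  · intro q
    refine ⟨bs t q - bs t' q, ?_⟩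
    intro ε hε
    obtain ⟨Y1, h1⟩ := hcu t q (ε / 2) (by linarith)
    obtain ⟨Y2, h2⟩ := hcu t' q (ε / 2) (by linarith)
    refine ⟨max Y1 Y2, ?_⟩
    intro τ hτ
    have h1' := h1 τ (lt_of_le_of_lt (le_max_left _ _) hτ)
    have h2' := h2 τ (lt_of_le_of_lt (le_max_right _ _) hτ)
    rw [← hms] at h2'
    have he : (Sd t).S q τ - (Sd t').S q τ - (bs t q - bs t' q) =
        ((Sd t).S q τ - (ms t q : ℂ) / N * τ - bs t q) -
        ((Sd t').S q τ - (ms t q : ℂ) / N * τ - bs t' q) := by ring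
    rw [he]
    refine (norm_sub_le _ _).trans_lt ?_
    linarith

end RicP
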