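import Pool.Agent.Helper50.Ric.LOC
import Pool.Agent.Helper53.Ric.GLOB

set_option autoImplicit false

/-!
# Ric, module SEQ: equivariance of the sums of the zeros in the fibres
-/

open scoped ContDiff Manifold Topology MatrixGroups LinearAlgebra.Projectivization
open Complex

noncomputable section

namespace RicP

/-! ### The action -/

theorem SEQ_det (γ : SL(2, ℤ)) : (γ 0 0 : ℤ) * γ 1 1 - γ 0 1 * γ 1 0 = 1 := by
  have h := γ.det_coe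
  rw [Matrix.det_fin_two] at h
  exact h

theorem SEQ_jj_ne (γ : SL(2, ℤ)) {τ : ℂ} (hτ : 0 < τ.im) : jj γ τ ≠ 0 := by
  intro h
  unfold jj at h
  have h1 := congrArg Complex.im h
  have h2 := congrArg Complex.re h
  simp only [add_im, mul_im, intCast_re, intCast_im, zero_mul, add_zero, zero_im, add_re, mul_re,
    sub_zero, zero_re] at h1 h2
  have hc : ((γ 1 0 : ℤ) : ℝ) = 0 := by
    rcases mul_eq_zero.mp h1 with h3 | h3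
    · exact h3
    · exact absurd h3 hτ.ne'
  rw [hc] at h2
  have hd : ((γ 1 1 : ℤ) : ℝ) = 0 := by linarith
  have hc' : (γ 1 0 : ℤ) = 0 := by exact_mod_cast hc
  have hd' : (γ 1 1 : ℤ) = 0 := by exact_mod_cast hd
  have := SEQ_det γ
  rw [hc', hd'] at this
  simp at this

theorem SEQ_mob_jj (γ : SL(2, ℤ)) {τ : ℂ} (hτ : 0 < τ.im) :
    mob γ τ * jj γ τ = ((γ 0 0 : ℤ) : ℂ) * τ + ((γ 0 1 : ℤ) : ℂ) := by
  have h := SEQ_jj_ne γ hτ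
  unfold mob
  unfold jj at h ⊢
  exact div_mul_cancel₀ _ h

theorem SEQ_mob_im (γ : SL(2, ℤ)) {τ : ℂ} (hτ : 0 < τ.im) : 0 < (mob γ τ).im := by
  have h := SEQ_jj_ne γ hτ
  have hn : 0 < Complex.normSq (jj γ τ) := Complex.normSq_pos.mpr h
  have hd : ((γ 0 0 : ℤ) : ℝ) * ((γ 1 1 : ℤ) : ℝ) - ((γ 0 1 : ℤ) : ℝ) * ((γ 1 0 : ℤ) : ℝ) = 1 := by
    exact_mod_cast SEQ_det γ
  have e : (mob γ τ).im = τ.im / Complex.normSq (jj γ τ) := by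
    unfold mob
    rw [Complex.div_im]
    have e1 : ((γ 1 0 : ℤ) : ℂ) * τ + ((γ 1 1 : ℤ) : ℂ) = jj γ τ := rfl
    rw [e1, ← sub_div]
    congr 1
    unfold jj
    simp only [add_im, mul_im, intCast_re, intCast_im, zero_mul, add_zero, add_re, mul_re, sub_zero]
    linear_combination τ.im * hd
  rw [e]
  exact div_pos hτ hn

theorem SEQ_one (τ : ℂ) : mob 1 τ = τ ∧ jj 1 τ = 1 := by
  unfold mob jj
  simp

/-- the key identity -/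
theorem SEQ_sF (M : ModData) (t : ℝ) (ζ' : ℂ) (γ : SL(2, ℤ)) {τ : ℂ} (hτ : 0 < τ.im) :
    sF M t ζ' (mob γ τ) * jj γ τ = sF M t (ζ' * M.χ γ) τ
      + (t : ℂ) * ((((ζ' * M.V₁ γ).re : ℝ) : ℂ) * τ + (((ζ' * M.V₂ γ).re : ℝ) : ℂ)) := by
  have h1 := M.period₁ γ τ hτ
  have h2 := M.period₂ γ τ hτ
  have hm := SEQ_mob_jj γ hτ
  have r1 : (ζ' * M.χ γ * M.F₁ τ).re + (ζ' * M.V₁ γ).re =
      (ζ' * M.F₁ (mob γ τ)).re * ((γ 0 0 : ℤ) : ℝ) +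
      (ζ' * M.F₂ (mob γ τ)).re * ((γ 1 0 : ℤ) : ℝ) := by
    have e : ζ' * M.χ γ * M.F₁ τ + ζ' * M.V₁ γ =
        (ζ' * M.F₁ (mob γ τ)) * ((((γ 0 0 : ℤ) : ℝ)) : ℂ) +
        (ζ' * M.F₂ (mob γ τ)) * ((((γ 1 0 : ℤ) : ℝ)) : ℂ) := by
      push_cast
      linear_combination (-ζ') * h1
    have := congrArg Complex.re e
    rw [add_re, add_re, re_mul_ofReal, re_mul_ofReal] at this
    exact this
  have r2 : (ζ' * M.χ γ * M.F₂ τ).re + (ζ' * M.V₂ γ).re =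
      (ζ' * M.F₁ (mob γ τ)).re * ((γ 0 1 : ℤ) : ℝ) +
      (ζ' * M.F₂ (mob γ τ)).re * ((γ 1 1 : ℤ) : ℝ) := by
    have e : ζ' * M.χ γ * M.F₂ τ + ζ' * M.V₂ γ =
        (ζ' * M.F₁ (mob γ τ)) * ((((γ 0 1 : ℤ) : ℝ)) : ℂ) +
        (ζ' * M.F₂ (mob γ τ)) * ((((γ 1 1 : ℤ) : ℝ)) : ℂ) := by
      push_cast
      linear_combination (-ζ') * h2
    have := congrArg Complex.re e
    rw [add_re, add_re, re_mul_ofReal, re_mul_ofReal] at this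
    exact this
  have c1 : (((ζ' * M.χ γ * M.F₁ τ).re : ℝ) : ℂ) + (((ζ' * M.V₁ γ).re : ℝ) : ℂ) =
      (((ζ' * M.F₁ (mob γ τ)).re : ℝ) : ℂ) * ((γ 0 0 : ℤ) : ℂ) +
      (((ζ' * M.F₂ (mob γ τ)).re : ℝ) : ℂ) * ((γ 1 0 : ℤ) : ℂ) := by
    exact_mod_cast congrArg (fun r : ℝ => (r : ℂ)) r1
  have c2 : (((ζ' * M.χ γ * M.F₂ τ).re : ℝ) : ℂ) + (((ζ' * M.V₂ γ).re : ℝ) : ℂ) =
      (((ζ' * M.F₁ (mob γ τ)).re : ℝ) : ℂ) * ((γ 0 1 : ℤ) : ℂ) +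
      (((ζ' * M.F₂ (mob γ τ)).re : ℝ) : ℂ) * ((γ 1 1 : ℤ) : ℂ) := by
    exact_mod_cast congrArg (fun r : ℝ => (r : ℂ)) r2
  unfold sF
  have hj : jj γ τ = ((γ 1 0 : ℤ) : ℂ) * τ + ((γ 1 1 : ℤ) : ℂ) := rfl
  rw [hj] at hm ⊢
  linear_combination (t : ℂ) * (((ζ' * M.F₁ (mob γ τ)).re : ℝ) : ℂ) * hm
    - (t : ℂ) * τ * c1 - (t : ℂ) * c2

theorem SEQ_zet (M : ModData) (N : ℕ) (q q' : QN M N) (γ : SL(2, ℤ))
    (h : (q : SL(2, ZMod N) × ℂˣ) = (q' : SL(2, ZMod N) × ℂˣ) * hN M N γ) :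
    zet M q = zet M q' * M.χ γ := by
  unfold zet
  rw [h]
  rfl

/-! ### The divisor -/

section
variable {M : ModData} {N : ℕ} {t : ℝ} (D : DivData M N t)

theorem SEQ_per (q : QN M N) : ∀ (τ z : ℂ) (m n : ℤ), 0 < τ.im →
    D.μ q (τ, z + m * τ + n) = D.μ q (τ, z) := by
  intro τ z m n hτ
  refine (D.inv q q (τ, z) (τ, z + m * τ + n) hτ ?_).symm
  refine ⟨1, m, n, ?_, ?_, ?_⟩
  · rw [map_one, mul_one]
  · exact (SEQ_one τ).1.symm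
  · simp only
    rw [(SEQ_one τ).2]
    ring

theorem SEQ_fin (q : QN M N) {τ : ℂ} (hτ : 0 < τ.im) :
    {x : ℂ ⧸ latt τ | D.μ q (τ, Quotient.out x) ≠ 0}.Finite := by
  have hper := SEQ_per D q
  set K : Set ℂ := (fun x : ℝ × ℝ => (x.1 : ℂ) * τ + (x.2 : ℂ)) ''
    (Set.Icc 0 1 ×ˢ Set.Icc 0 1) with hKdef
  have hK : IsCompact K := (isCompact_Icc.prod isCompact_Icc).image (by fun_prop)
  have hf := loc_finite (D.fib q) hτ hK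
  refine (hf.image (fun z : ℂ => (z : ℂ ⧸ latt τ))).subset ?_
  intro x hx
  obtain ⟨z, rfl⟩ := QuotientAddGroup.mk_surjective x
  have hx' : D.μ q (τ, z) ≠ 0 := by
    have h1 := loc_out hτ hper z
    rw [← h1]
    exact hx
  set m : ℤ := ⌊loc_a τ z⌋ with hm
  set n : ℤ := ⌊loc_b τ z⌋ with hn
  have hz := loc_ab hτ z
  refine ⟨z + ((-m : ℤ) : ℂ) * τ + ((-n : ℤ) : ℂ), ⟨?_, ?_⟩, ?_⟩
  · refine ⟨(Int.fract (loc_a τ z), Int.fract (loc_b τ z)), ⟨⟨Int.fract_nonneg _,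
      (Int.fract_lt_one _).le⟩, ⟨Int.fract_nonneg _, (Int.fract_lt_one _).le⟩⟩, ?_⟩
    simp only [Int.fract]
    push_cast
    rw [← hm, ← hn]
    linear_combination (-1 : ℂ) * hz
  · show D.μ q (τ, z + ((-m : ℤ) : ℂ) * τ + ((-n : ℤ) : ℂ)) ≠ 0
    rw [hper τ z (-m) (-n) hτ]
    exact hx'
  · refine glob_latt' (-m) (-n) ?_
    ring

end

/-- multiplication by the automorphy factor on the quotients -/
def SEQ_mul (γ : SL(2, ℤ)) (τ : ℂ) (hτ : 0 < τ.im) : ℂ ≃+ ℂ where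
  toFun z := z * jj γ τ
  invFun z := z / jj γ τ
  left_inv z := by
    simp only
    exact mul_div_cancel_right₀ _ (SEQ_jj_ne γ hτ)
  right_inv z := by
    simp only
    exact div_mul_cancel₀ _ (SEQ_jj_ne γ hτ)
  map_add' a b := by ring

theorem SEQ_map (γ : SL(2, ℤ)) (τ : ℂ) (hτ : 0 < τ.im) :
    (latt (mob γ τ)).map (SEQ_mul γ τ hτ : ℂ →+ ℂ) = latt τ := by
  have hm := SEQ_mob_jj γ hτ
  have hj : jj γ τ = ((γ 1 0 : ℤ) : ℂ) * τ + ((γ 1 1 : ℤ) : ℂ) := rfl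
  have hdet : (((γ 0 0 : ℤ) : ℂ)) * ((γ 1 1 : ℤ) : ℂ) - ((γ 0 1 : ℤ) : ℂ) * ((γ 1 0 : ℤ) : ℂ) = 1 := by
    exact_mod_cast SEQ_det γ
  apply le_antisymm
  · rintro _ ⟨z, ⟨m, n, rfl⟩, rfl⟩
    refine ⟨m * γ 0 0 + n * γ 1 0, m * γ 0 1 + n * γ 1 1, ?_⟩
    show ((m : ℂ) * mob γ τ + n) * jj γ τ = _
    rw [add_mul, mul_assoc, hm, hj]
    push_cast
    ring
  · rintro z ⟨m, n, rfl⟩
    refine ⟨((m * γ 1 1 - n * γ 1 0 : ℤ) : ℂ) * mob γ τ + ((n * γ 0 0 - m * γ 0 1 : ℤ) : ℂ),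
      ⟨_, _, rfl⟩, ?_⟩
    show (((m * γ 1 1 - n * γ 1 0 : ℤ) : ℂ) * mob γ τ + ((n * γ 0 0 - m * γ 0 1 : ℤ) : ℂ)) *
      jj γ τ = _
    rw [add_mul, mul_assoc, hm, hj]
    push_cast
    linear_combination ((m : ℂ) * τ + n) * hdet

/-- the isomorphism of the fibres -/
def SEQ_iso (γ : SL(2, ℤ)) (τ : ℂ) (hτ : 0 < τ.im) : (ℂ ⧸ latt (mob γ τ)) ≃+ (ℂ ⧸ latt τ) :=
  QuotientAddGroup.congr _ _ (SEQ_mul γ τ hτ) (SEQ_map γ τ hτ)

theorem SEQ_iso_mk (γ : SL(2, ℤ)) (τ : ℂ) (hτ : 0 < τ.im) (z : ℂ) :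
    SEQ_iso γ τ hτ (z : ℂ ⧸ latt (mob γ τ)) = ((z * jj γ τ : ℂ) : ℂ ⧸ latt τ) := rfl

theorem st_SEQ : ST_SEQ := by
  intro M N hN t D q q' γ hq
  set a : ℂ → ℂ := fun τ => sF M t (zet M q) τ - sF M t (zet M q') (mob γ τ) * jj γ τ with ha
  have ha' : ∀ τ : ℂ, 0 < τ.im → a τ =
      -((t : ℂ) * ((((zet M q' * M.V₁ γ).re : ℝ) : ℂ) * τ
        + (((zet M q' * M.V₂ γ).re : ℝ) : ℂ))) := by
    intro τ hτ
    rw [ha]
    simp only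
    rw [SEQ_sF M t (zet M q') γ hτ, ← SEQ_zet M N q q' γ hq]
    ring
  have hμ : ∀ τ : ℂ, ∀ hτ : 0 < τ.im, ∀ x : ℂ ⧸ latt (mob γ τ),
      D.μ q (τ, Quotient.out (SEQ_iso γ τ hτ x + ((a τ : ℂ) : ℂ ⧸ latt τ))) =
        D.μ q' (mob γ τ, Quotient.out x) := by
    intro τ hτ x
    have hx : ((Quotient.out x : ℂ) : ℂ ⧸ latt (mob γ τ)) = x := QuotientAddGroup.out_eq' x
    have h1 : SEQ_iso γ τ hτ x + ((a τ : ℂ) : ℂ ⧸ latt τ) =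
        ((Quotient.out x * jj γ τ + a τ : ℂ) : ℂ ⧸ latt τ) := by
      conv_lhs => rw [← hx]
      rw [SEQ_iso_mk]
      rfl
    rw [h1, loc_out hτ (SEQ_per D q)]
    refine D.inv q q' _ _ hτ ⟨γ, 0, 0, hq, rfl, ?_⟩
    simp only [ha, Int.cast_zero, zero_mul, add_zero]
    ring
  have hequiv : ∀ τ : ℂ, ∀ hτ : 0 < τ.im, Function.Bijective
      (fun x : ℂ ⧸ latt (mob γ τ) => SEQ_iso γ τ hτ x + ((a τ : ℂ) : ℂ ⧸ latt τ)) := by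
    intro τ hτ
    exact (AddGroup.addRight_bijective ((a τ : ℂ) : ℂ ⧸ latt τ)).comp (SEQ_iso γ τ hτ).bijective
  have hdeg : ∀ τ : ℂ, 0 < τ.im → degF (D.μ q') (mob γ τ) = degF (D.μ q) τ := by
    intro τ hτ
    unfold degF
    exact finsum_eq_of_bijective _ (hequiv τ hτ) (fun x => (hμ τ hτ x).symm)
  refine ⟨hdeg, ?_⟩
  intro d S S' hS hS' h1 h2
  have hcont : ContinuousOn (fun τ => S' (mob γ τ) * jj γ τ - S τ
      - (d : ℂ) * (t : ℂ) * ((((zet M q' * M.V₁ γ).re : ℝ) : ℂ) * τ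
        + (((zet M q' * M.V₂ γ).re : ℝ) : ℂ))) {τ : ℂ | 0 < τ.im} := by
    have hmob : ContinuousOn (fun τ => mob γ τ) {τ : ℂ | 0 < τ.im} := by
      unfold mob
      refine ContinuousOn.div (by fun_prop) (by fun_prop) ?_
      intro τ hτ
      exact SEQ_jj_ne γ hτ
    have hc : ContinuousOn (fun τ => S' (mob γ τ)) {τ : ℂ | 0 < τ.im} :=
      hS'.comp hmob (fun τ hτ => SEQ_mob_im γ hτ)
    have hj : ContinuousOn (fun τ => jj γ τ) {τ : ℂ | 0 < τ.im} := by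
      unfold jj
      fun_prop
    exact ((hc.mul hj).sub hS).sub (by fun_prop)
  have hl : ∀ τ ∈ {τ : ℂ | 0 < τ.im}, ∃ m n : ℤ, S' (mob γ τ) * jj γ τ - S τ
      - (d : ℂ) * (t : ℂ) * ((((zet M q' * M.V₁ γ).re : ℝ) : ℂ) * τ
        + (((zet M q' * M.V₂ γ).re : ℝ) : ℂ)) = (m : ℂ) * τ + n := by
    intro τ hτ
    have hτ' : 0 < τ.im := hτ
    have hs1 : sumF (D.μ q) τ = ∑ᶠ x : ℂ ⧸ latt (mob γ τ), D.μ q' (mob γ τ, Quotient.out x) •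
        (SEQ_iso γ τ hτ' x + ((a τ : ℂ) : ℂ ⧸ latt τ)) := by
      unfold sumF
      refine (finsum_eq_of_bijective _ (hequiv τ hτ') (fun x => ?_)).symm
      rw [hμ τ hτ' x]
    have hfin := SEQ_fin D q' (SEQ_mob_im γ hτ')
    have hs2 : sumF (D.μ q) τ = SEQ_iso γ τ hτ' (sumF (D.μ q') (mob γ τ)) +
        degF (D.μ q') (mob γ τ) • ((a τ : ℂ) : ℂ ⧸ latt τ) := by
      rw [hs1]
      have e1 : ∀ x : ℂ ⧸ latt (mob γ τ), D.μ q' (mob γ τ, Quotient.out x) •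
          (SEQ_iso γ τ hτ' x + ((a τ : ℂ) : ℂ ⧸ latt τ)) =
          SEQ_iso γ τ hτ' (D.μ q' (mob γ τ, Quotient.out x) • x) +
          D.μ q' (mob γ τ, Quotient.out x) • ((a τ : ℂ) : ℂ ⧸ latt τ) := by
        intro x
        rw [nsmul_add, map_nsmul]
      rw [finsum_congr e1, finsum_add_distrib]
      · congr 1
        · unfold sumF
          refine ((SEQ_iso γ τ hτ' : (ℂ ⧸ latt (mob γ τ)) →+ (ℂ ⧸ latt τ)).map_finsum ?_).symm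
          refine hfin.subset ?_
          intro x hx hx0
          exact hx (by beta_reduce; rw [hx0]; exact zero_nsmul _)
        · unfold degF
          refine ((multiplesHom (ℂ ⧸ latt τ) ((a τ : ℂ) : ℂ ⧸ latt τ)).map_finsum ?_).symm
          exact hfin
      · refine hfin.subset ?_
        intro x hx hx0
        exact hx (by beta_reduce; rw [hx0]; rw [show (0 : ℕ) • x = 0 from zero_nsmul x, map_zero])
      · refine hfin.subset ?_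
        intro x hx hx0
        exact hx (by beta_reduce; rw [hx0]; exact zero_nsmul _)
    rw [hdeg τ hτ', (h1 τ hτ').2, (h1 τ hτ').1, h2 (mob γ τ) (SEQ_mob_im γ hτ'), SEQ_iso_mk] at hs2
    have hs3 : ((S τ : ℂ) : ℂ ⧸ latt τ) =
        ((S' (mob γ τ) * jj γ τ + d • a τ : ℂ) : ℂ ⧸ latt τ) := by
      rw [hs2]
      rfl
    obtain ⟨m, n, hmn⟩ := glob_latt hs3.symm
    refine ⟨m, n, ?_⟩
    rw [← hmn, nsmul_eq_mul, ha' τ hτ']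
    ring
  obtain ⟨m, n, hmn⟩ := glob_int _ {τ : ℂ | 0 < τ.im} (convex_halfSpace_im_gt 0).isPreconnected
    (fun _ h => h) hcont hl I (by show 0 < I.im; simp)
  refine ⟨m, n, fun τ hτ => ?_⟩
  have := hmn τ hτ
  linear_combination this

end RicP
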